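import Pool.Agent.H.MP_196b75_an.A

set_option autoImplicit false

open Filter Topology Metric Set Complex
open Pool.Agent.H.MP_196b75_an Pool.Agent.H.MP_70d5b9_an

namespace Pool.Agent.H.MP_061dbe_an

def InA (f : ℂ → ℂ) : Prop := DifferentiableOn ℂ f (ball 0 1) ∧ f 0 = 0 ∧ deriv f 0 = 1

def Sig (δ : ℝ) (f g : ℂ → ℂ) : Prop := InA g ∧ ∀ z ∈ ball (0 : ℂ) 1, z ≠ 0 →
  ‖(deriv g z - deriv f z) - (g z - f z) / z‖ + ‖(deriv g z - deriv f z) + (g z - f z) / z‖ < 2 * δ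

noncomputable def coef (f : ℂ → ℂ) (n : ℕ) : ℂ := iteratedDeriv n f 0 / n.factorial

lemma coef_eq {f : ℂ → ℂ} {b : ℕ → ℂ}
    (h : ∀ z ∈ ball (0 : ℂ) 1, HasSum (fun n => z ^ n * b n) (f z)) : coef f = b := by
  have h1 : HasFPowerSeriesAt f (.ofScalars ℂ b) 0 := hasFPowerSeriesAt_iff.2 (by
    filter_upwards [ball_mem_nhds (0 : ℂ) one_pos] with z hz
    simpa using h z hz)
  exact FormalMultilinearSeries.ofScalars_series_injective ℂ ℂ
    (h1.analyticAt.hasFPowerSeriesAt.eq_formalMultilinearSeries h1)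

theorem main (x : ℂ) (hx : ‖x‖ ≤ 1 / 8) : ∃ (g h : ℂ → ℂ) (z₀ : ℂ),
    Sig (1 / (1 + ‖x‖) ^ 2) (fun z => z / (1 - x * z)) g ∧ InA h ∧ InjOn h (ball 0 1) ∧
      0 < ‖z₀‖ ∧ ‖z₀‖ < 1 ∧ HasSum (fun n => coef g n * coef h n * z₀ ^ n) 0 := by
  obtain ⟨ω, ω1, hω⟩ : ∃ ω : ℂ, ‖ω‖ = 1 ∧ x = I * ‖x‖ * ω := by
    obtain ⟨a, a1, a2⟩ := exists_norm_mul_eq_self x
    exact ⟨-I * a, by simp [a1], by
      linear_combination (exp := 1) -a2 + (‖x‖ * a) * I_mul_I⟩
  obtain ⟨ρ, hρ⟩ : ∃ ρ, ρ = ‖x‖ := ⟨_, rfl⟩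
  rw [← hρ] at hω hx ⊢
  have ρ0 : 0 ≤ ρ := hρ ▸ norm_nonneg x
  have ω0 : ω ≠ 0 := norm_pos_iff.1 (by linarith)
  obtain ⟨c, hc⟩ : ∃ c : ℂ, c = 5000 / 2501 - 100 / 2501 * I := ⟨_, rfl⟩
  obtain ⟨u, hu⟩ : ∃ u : ℂ, u = -(99999 / 100000) * I := ⟨_, rfl⟩
  obtain ⟨L, hL⟩ : ∃ L : ℂ, L = 2 * -c * u + 3 * (c * (c + 1) / 2) * u ^ 2 +
    c * (c + 1) * (c + 2) / 6 * u ^ 3 := ⟨_, rfl⟩
  obtain ⟨w, hw⟩ : ∃ w : ℝ, w = 99999 / 100000 * ρ := ⟨_, rfl⟩
  obtain ⟨E, hE⟩ : ∃ E : ℂ, E = EE c 0 w := ⟨_, rfl⟩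
  have u1 : ‖u‖ = 99999 / 100000 := by simp [hu]
  have L1 : 12.0464 < ‖L‖ := by
    refine (sq_lt_sq₀ (by norm_num) (norm_nonneg _)).mp ?_
    rw [Complex.sq_norm, normSq_apply, hL, hc, hu]
    simp [pow_succ]
    norm_num
  have L0 : L ≠ 0 := norm_pos_iff.mp (by linarith)
  have E1 : ‖E‖ * (1 + ρ) ^ 2 ≤ 1.00011 := by
    have a1 : log (1 + (w : ℂ)) = Real.log (1 + w) := by
      rw [ofReal_log (by linarith)]; push_cast; rfl
    have a2 : (1 + ρ) ^ 2 = Real.exp (2 * Real.log (1 + ρ)) := by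
      rw [mul_comm, Real.exp_mul, Real.exp_log (by linarith)]; simp
    have a3 : Real.log (1 + ρ) - Real.log (1 + w) ≤ 1 / 800000 := by
      rw [← Real.log_div (by linarith) (by linarith)]
      refine (Real.log_le_sub_one_of_pos (div_pos (by linarith) (by linarith))).trans ?_
      rw [sub_le_iff_le_add, div_le_iff₀ (by linarith)]
      nlinarith
    have a4 := Real.log_le_sub_one_of_pos (show 0 < 1 + w by linarith)
    rw [hE, EE, a1, norm_exp, a2, ← Real.exp_add]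
    have a5 : (-(c + (0 : ℕ)) * (Real.log (1 + w) : ℂ)).re = -(5000 / 2501) * Real.log (1 + w) := by
      rw [mul_comm, re_ofReal_mul, hc]; simp; ring
    rw [a5]
    refine (Real.exp_le_exp.2 (show _ ≤ 0.000103 by linarith)).trans
      ((Real.exp_bound_div_one_sub_of_interval (by norm_num) (by norm_num)).trans (by norm_num))
  have xz : ∀ z ∈ ball (0 : ℂ) 1, ‖x * z‖ < 1 := fun z hz => by
    rw [norm_mul, ← hρ]
    nlinarith [mem_ball_zero_iff.1 hz, norm_nonneg z]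
  have xz' : ∀ z ∈ ball (0 : ℂ) 1, 1 - x * z ≠ 0 := fun z hz h => by
    simpa [← sub_eq_zero.1 h] using xz z hz
  have df : ∀ z ∈ ball (0 : ℂ) 1, HasDerivAt (fun z => z / (1 - x * z)) (1 / (1 - x * z) ^ 2) z :=
    fun z hz => ((hasDerivAt_id' z).fun_div (((hasDerivAt_id' z).const_mul x).const_sub 1)
      (xz' z hz)).congr_deriv (by ring)
  have d : ∀ z ∈ ball (0 : ℂ) 1, HasDerivAt (fun z : ℂ => z / (1 - x * z) -
      E / L * (2 * ω * z ^ 2 + 3 * ω ^ 2 * z ^ 3 - ω ^ 3 * z ^ 4)) (1 / (1 - x * z) ^ 2 -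
        E / L * (4 * ω * z + 9 * ω ^ 2 * z ^ 2 - 4 * ω ^ 3 * z ^ 3)) z := fun z hz =>
    ((df z hz).fun_sub ((((hasDerivAt_pow 2 z).const_mul _).fun_add
      ((hasDerivAt_pow 3 z).const_mul _)).fun_sub ((hasDerivAt_pow 4 z).const_mul _)
        |>.const_mul _)).congr_deriv (by norm_num; left; ring)
  have c0 := Real.cos_arctan_pos (-1 / 50)
  have e : sp (Real.arctan (-1 / 50)) = fun z => z * EE c 0 z := by
    ext z
    rw [sp, cc, EE, hc, Nat.cast_zero, add_zero]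
  have m0 : (0 : ℂ) ∈ ball (0 : ℂ) 1 := mem_ball_self one_pos
  have dh : DifferentiableOn ℂ (sp (Real.arctan (-1 / 50))) (ball 0 1) := fun z hz =>
    (sp_der _ (ball_KK hz)).differentiableAt.differentiableWithinAt
  refine ⟨_, _, u / ω, ⟨⟨fun z hz => (d z hz).differentiableAt.differentiableWithinAt, by simp,
    by simpa using (d 0 m0).deriv⟩, fun z hz z0 => ?_⟩, ⟨dh, by simp [sp],
      by simpa using (sp_der _ (ball_KK m0)).deriv⟩, sp_inj c0, by simp [u1, ω1],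
        by simp [u1, ω1]; norm_num, ?_⟩
  · have := bound (z := ω * z) (by simpa [ω1] using hz)
    rw [(d z hz).deriv, (df z hz).deriv]
    simp only [sub_sub_cancel_left]
    rw [show -(E / L * (4 * ω * z + 9 * ω ^ 2 * z ^ 2 - 4 * ω ^ 3 * z ^ 3)) -
      -(E / L * (2 * ω * z ^ 2 + 3 * ω ^ 2 * z ^ 3 - ω ^ 3 * z ^ 4)) / z =
        -(E / L * (ω * z)) * (2 + 6 * (ω * z) - 3 * (ω * z) ^ 2) by field_simp; ring,
      show -(E / L * (4 * ω * z + 9 * ω ^ 2 * z ^ 2 - 4 * ω ^ 3 * z ^ 3)) +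
      -(E / L * (2 * ω * z ^ 2 + 3 * ω ^ 2 * z ^ 3 - ω ^ 3 * z ^ 4)) / z =
        -(E / L * (ω * z)) * (6 + 12 * (ω * z) - 5 * (ω * z) ^ 2) by field_simp; ring,
      norm_mul, norm_mul _ (_ - _), ← mul_add, norm_neg, norm_mul, norm_mul, norm_div, ω1, one_mul,
      mul_one_div, lt_div_iff₀ (by positivity)]
    have a1 : ‖E‖ / ‖L‖ * (1 + ρ) ^ 2 ≤ 1.00011 / 12.0464 := by
      rw [div_mul_eq_mul_div]
      gcongr
    have a2 := mul_le_mul a1 (mul_le_mul (mem_ball_zero_iff.1 hz).le this (by positivity)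
      zero_le_one) (by positivity) (by norm_num)
    linarith
  have k : ∀ n : ℕ, coef (fun z => z * EE c 0 z) (n + 1) =
      (n + 1) * (∏ j ∈ Finset.range n, -(c + j)) / (n + 1).factorial := fun n => by
    rw [coef, iter c n 0 m0]
    simp [EE]
  have s1 : ∀ (y : ℂ) (j : ℕ) (a : ℕ → ℂ), HasSum (fun n => (if n = j then y else 0) * a n)
      (y * a j) := fun y j a => by
    exact (hasSum_ite_eq j (y * a j)).congr_fun fun n => by split_ifs with h <;> simp [h]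
  have g : coef (fun z : ℂ => z / (1 - x * z) - E / L * (2 * ω * z ^ 2 + 3 * ω ^ 2 * z ^ 3 -
      ω ^ 3 * z ^ 4)) = fun n => (if n = 0 then 0 else x ^ (n - 1)) - E / L *
        ((if n = 2 then 2 * ω else 0) + (if n = 3 then 3 * ω ^ 2 else 0) -
          (if n = 4 then ω ^ 3 else 0)) := coef_eq fun z hz => by
    have a1 : HasSum (fun n => z ^ n * if n = 0 then 0 else x ^ (n - 1)) (z / (1 - x * z)) := by
      rw [← hasSum_nat_add_iff' 1]
      simpa [div_eq_mul_inv, pow_succ, mul_pow, mul_comm, mul_left_comm, mul_assoc] using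
        (hasSum_geometric_of_norm_lt_one (xz z hz)).mul_left z
    exact (a1.sub ((((s1 _ 2 (z ^ ·)).add (s1 _ 3 (z ^ ·))).sub (s1 _ 4 (z ^ ·))).mul_left
      (E / L))).congr_fun fun n => by ring
  have xu : x * (u / ω) = w := by
    rw [hω, hu, hw]; field_simp; push_cast; linear_combination (-99999 * ρ) * I_mul_I
  have t : HasSum (fun n => (if n = 0 then 0 else x ^ (n - 1)) *
      coef (fun z => z * EE c 0 z) n * (u / ω) ^ n) (u / ω * E) := by
    rcases eq_or_ne x 0 with x0 | x0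
    · have w0 : (w : ℂ) = 0 := by rw [← xu, x0, zero_mul]
      convert s1 1 1 fun n => coef (fun z => z * EE c 0 z) n * (u / ω) ^ n using 1
      · ext n
        rcases n with _ | _ | n <;> simp [x0]
      · rw [k 0]
        simp [hE, w0, EE]
    · rw [e] at dh
      have := (hasSum_taylorSeries_on_ball dh (z := x * (u / ω)) (by
        rw [xu, mem_ball_zero_iff, norm_real, Real.norm_of_nonneg (by linarith)]
        linarith)).div_const x
      rw [show u / ω * E = x * (u / ω) * EE c 0 (x * (u / ω)) / x by rw [hE, ← xu]; field_simp]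
      refine this.congr_fun fun n => ?_
      rcases n with _ | n
      · simp
      · simp only [coef, smul_eq_mul, sub_zero, mul_pow, Nat.add_one_ne_zero, if_false,
          add_tsub_cancel_right, pow_succ x]
        field_simp
  rw [g, e]
  have := t.sub ((((s1 (2 * ω) 2 fun n => coef (fun z => z * EE c 0 z) n * (u / ω) ^ n).add
    (s1 (3 * ω ^ 2) 3 fun n => coef (fun z => z * EE c 0 z) n * (u / ω) ^ n)).sub
      (s1 (ω ^ 3) 4 fun n => coef (fun z => z * EE c 0 z) n * (u / ω) ^ n)).mul_left (E / L))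
  have := this.congr_fun (g := fun n => ((if n = 0 then 0 else x ^ (n - 1)) - E / L *
    ((if n = 2 then 2 * ω else 0) + (if n = 3 then 3 * ω ^ 2 else 0) - (if n = 4 then ω ^ 3 else 0))) *
      coef (fun z => z * EE c 0 z) n * (u / ω) ^ n) fun n => by ring
  refine (congrArg (fun s => HasSum _ s) ?_).mp this
  rw [k 1, k 2, k 3]
  simp only [Finset.prod_range_succ, Finset.range_zero, Finset.prod_empty, Nat.factorial]
  norm_num
  field_simp
  linear_combination (144 * u * E) * hL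

end Pool.Agent.H.MP_061dbe_an
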